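import Pool.Agent.X64.Mono.Final

/-!
# MP_6a261b_co, Q1: `h_mon(n, k) ≤ 4 ∑_{ℓ ≤ k} C(n, ℓ + 1)`

The answer to Q1 is yes, with `c = 4`. More precisely
`h_mon(n, k) ≤ 3 n - 5 + 4 ∑_{ℓ=1}^{k} C(n - 2, ℓ + 1)` for all `n ≥ 2`, `k ≥ 0`.

Idea: after a perturbation the edges are triples `(i, j, S)`: an edge from the `i`-th to the `j`-th
vertex, passing above exactly the vertices in `S`. The last vertex is merged into the one before
it. An edge of the merged family has up to three preimages (passing above, ending at, passing below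
the last but one vertex); the edges with several preimages all end at the same vertex and form two
families whose members cross at most `k - 1` times. Merging again from the other side leads to
families of parallel edges that cross at most `k - 2` times, where the argument gives the
Sauer-Shelah bound.
-/

namespace Pool.Agent.Results.MP_6a261b_co.AbsoluteConstant

open Pool.Agent.X64.Mono

theorem exists_empty (n k : ℕ) : ∃ D : Drawing n 0, D.Monotone ∧ D.NonHomotopic ∧ D.CrossLe k := by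
  refine ⟨⟨fun e => e.elim0, fun v => ((v : ℕ), 0), ?_, fun e => e.elim0, fun e => e.elim0,
    fun e => e.elim0, fun e => e.elim0, fun e => e.elim0⟩, fun e => e.elim0, fun e => e.elim0,
    fun e => e.elim0⟩
  intro v w h
  simp only [Prod.mk.injEq, Nat.cast_inj, and_true] at h
  exact Fin.ext h

/-- **Q1: yes, with `c = 4`.** The number `hmon n k` is attained, it is at most
`4 ∑_{ℓ=0}^{k} C(n, ℓ + 1)` for all `n`, `k`, and at most
`3 n - 5 + 4 ∑_{ℓ=1}^{k} C(n - 2, ℓ + 1)` for `n ≥ 2`. -/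
theorem result :
    (∃ c : ℕ, ∀ n k : ℕ, 1 ≤ n → hmon n k ≤ c * ∑ l ∈ Finset.range (k + 1), n.choose (l + 1)) ∧
    ∀ n k : ℕ,
      (∃ D : Drawing n (hmon n k), D.Monotone ∧ D.NonHomotopic ∧ D.CrossLe k) ∧
      (∀ (m : ℕ) (D : Drawing n m), D.Monotone → D.NonHomotopic → D.CrossLe k → m ≤ hmon n k) ∧
      hmon n k ≤ 4 * ∑ l ∈ Finset.range (k + 1), n.choose (l + 1) ∧
      (2 ≤ n → hmon n k + 5 ≤ 3 * n + 4 * ∑ l ∈ Finset.range k, (n - 2).choose (l + 2)) := by
  have hb : ∀ n k : ℕ, BddAbove {m | ∃ D : Drawing n m, D.Monotone ∧ D.NonHomotopic ∧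
      D.CrossLe k} := by
    intro n k
    refine ⟨4 * ∑ l ∈ Finset.range (k + 1), n.choose (l + 1), ?_⟩
    rintro m ⟨D, h1, h2, h3⟩
    exact bound D h1 h2 h3
  have hne : ∀ n k : ℕ, {m | ∃ D : Drawing n m, D.Monotone ∧ D.NonHomotopic ∧
      D.CrossLe k}.Nonempty := fun n k => ⟨0, exists_empty n k⟩
  have hatt : ∀ n k : ℕ, ∃ D : Drawing n (hmon n k), D.Monotone ∧ D.NonHomotopic ∧ D.CrossLe k :=
    fun n k => Nat.sSup_mem (hne n k) (hb n k)
  have h4 : ∀ n k : ℕ, hmon n k ≤ 4 * ∑ l ∈ Finset.range (k + 1), n.choose (l + 1) := by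
    intro n k
    obtain ⟨D, h1, h2, h3⟩ := hatt n k
    exact bound D h1 h2 h3
  refine ⟨⟨4, fun n k _ => h4 n k⟩, fun n k => ⟨hatt n k, ?_, h4 n k, ?_⟩⟩
  · intro m D h1 h2 h3
    exact le_csSup (hb n k) ⟨D, h1, h2, h3⟩
  · intro hn
    obtain ⟨n', rfl⟩ : ∃ n', n = n' + 2 := ⟨n - 2, by omega⟩
    obtain ⟨D, h1, h2, h3⟩ := hatt (n' + 2) k
    have := drawing_bound D h1 h2 h3
    rw [show n' + 2 - 2 = n' by omega]
    omega

end Pool.Agent.Results.MP_6a261b_co.AbsoluteConstant
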